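import Pool.Agent.H22.CM.Stm

/-! Parts TRO and COO of crew CM. -/

set_option autoImplicit false

namespace H32.CM

open Pool.Agent.Y382.PAR H22.CM

theorem t_TRO : S_TRO := by
  intro G _ _ n mul ⟨E, hE⟩
  constructor
  · intro h ε δ
    obtain ⟨f, F, h1, h2, h3⟩ := h ε δ
    refine ⟨E.permCongr f, E.permCongr F, fun x => ?_, by rw [sgn_congr]; exact h2,
      by rw [sgn_congr]; exact h3⟩
    have := hE (E.symm x) (f (E.symm x)) (F (E.symm x)) (h1 _).symm
    simpa [Equiv.permCongr_apply] using this.symm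
  · rintro ⟨f, F, h1⟩
    refine ⟨E.permCongr f, E.permCongr F, fun x => ?_⟩
    have := hE (E.symm x) (f (E.symm x)) (F (E.symm x)) (h1 _).symm
    simpa [Equiv.permCongr_apply] using this.symm

theorem b_pow {G : Type} [Group G] {b c : G} {r : ℕ} (h : b * c = c ^ r * b) (j : ℕ) :
    b * c ^ j = c ^ (r * j) * b := by
  induction j with
  | zero => simp
  | succ j ih =>
    rw [pow_succ, ← mul_assoc, ih, mul_assoc, h, ← mul_assoc, ← pow_add, Nat.mul_succ]

theorem t_COO : S_COO := by
  intro G _ _ m r e hm ⟨c, b, hc, hb, hbc, hbb, hcard⟩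
  have hM : 0 < 2 * m := by omega
  have hcm : c ^ (2 * m) = 1 := by rw [← hc]; exact pow_orderOf_eq_one c
  have hmod : ∀ k : ℕ, c ^ (k % (2 * m)) = c ^ k := fun k => by rw [← hc]; exact pow_mod_orderOf c k
  have hmulM : ∀ k : ℕ, c ^ (2 * m * k) = 1 := fun k => by rw [pow_mul, hcm, one_pow]
  have hd : ∀ x : Fin (4 * m), (x : ℕ) / (2 * m) = 0 ∨ (x : ℕ) / (2 * m) = 1 := by
    intro x
    have h1 : (x : ℕ) / (2 * m) < 2 := by
      rw [Nat.div_lt_iff_lt_mul hM]
      have := x.2
      omega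
    revert h1
    generalize (x : ℕ) / (2 * m) = q
    intro h1
    omega
  let E0 : Fin (4 * m) → G := fun x => c ^ (x : ℕ) * b ^ ((x : ℕ) / (2 * m))
  have hinj : Function.Injective E0 := by
    intro x y hxy
    simp only [E0] at hxy
    have key : (x : ℕ) / (2 * m) = (y : ℕ) / (2 * m) → x = y := by
      intro h
      rw [h] at hxy
      have h1 := mul_right_cancel hxy
      rw [pow_eq_pow_iff_modEq, hc] at h1
      have h2 := Nat.div_add_mod (x : ℕ) (2 * m)
      have h3 := Nat.div_add_mod (y : ℕ) (2 * m)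
      have h4 : (x : ℕ) % (2 * m) = (y : ℕ) % (2 * m) := h1
      rw [h, h4, h3] at h2
      exact Fin.ext h2.symm
    rcases hd x with hx | hx <;> rcases hd y with hy | hy
    · exact key (hx.trans hy.symm)
    · exfalso
      rw [hx, hy, pow_zero, mul_one, pow_one] at hxy
      apply hb
      have : b = (c ^ (y : ℕ))⁻¹ * c ^ (x : ℕ) := by rw [hxy]; group
      rw [this]
      exact mul_mem (inv_mem (pow_mem (Subgroup.mem_zpowers c) _))
        (pow_mem (Subgroup.mem_zpowers c) _)
    · exfalso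
      rw [hx, hy, pow_zero, mul_one, pow_one] at hxy
      apply hb
      have : b = (c ^ (x : ℕ))⁻¹ * c ^ (y : ℕ) := by rw [← hxy]; group
      rw [this]
      exact mul_mem (inv_mem (pow_mem (Subgroup.mem_zpowers c) _))
        (pow_mem (Subgroup.mem_zpowers c) _)
    · exact key (hx.trans hy.symm)
  have hbij : Function.Bijective E0 := by
    have := Fintype.ofFinite G
    rw [Fintype.bijective_iff_injective_and_card]
    refine ⟨hinj, ?_⟩
    rw [Fintype.card_fin, ← Nat.card_eq_fintype_card, hcard]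
  refine ⟨Equiv.ofBijective E0 hbij, ?_⟩
  intro x y z hz
  simp only [Equiv.ofBijective_apply, E0]
  unfold lawF at hz
  rcases hd x with hx | hx
  · rw [if_pos hx] at hz
    have hzd : (z : ℕ) / (2 * m) = (y : ℕ) / (2 * m) := by
      rw [← hz, Nat.add_mul_div_left _ _ hM, Nat.div_eq_of_lt (Nat.mod_lt _ hM), zero_add]
    rw [hzd, hx, ← hz, pow_add, hmod, hmulM, pow_add, hmod, pow_zero]
    group
  · rw [if_neg (by omega)] at hz
    rcases hd y with hy | hy
    · rw [if_pos hy] at hz
      have hzd : (z : ℕ) / (2 * m) = 1 := by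
        rw [← hz, Nat.add_div_right _ hM, Nat.div_eq_of_lt (Nat.mod_lt _ hM)]
      rw [hzd, hx, hy, pow_one, pow_zero, mul_one, mul_assoc, b_pow hbc, ← mul_assoc, ← pow_add,
        ← hz, pow_add c _ (2 * m), hmod, hcm, mul_one]
    · rw [if_neg (by omega)] at hz
      have hzd : (z : ℕ) / (2 * m) = 0 := by
        rw [← hz]; exact Nat.div_eq_of_lt (Nat.mod_lt _ hM)
      have h5 : c ^ (r * ((y : ℕ) % (2 * m))) = c ^ (r * (y : ℕ)) := by
        rw [mul_comm r, mul_comm r, pow_mul, hmod, ← pow_mul]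
      rw [hzd, hx, hy, pow_one, pow_zero, mul_one, ← hz, hmod, pow_add, pow_add, h5, ← hbb]
      calc c ^ (x : ℕ) * b * (c ^ (y : ℕ) * b) = c ^ (x : ℕ) * (b * c ^ (y : ℕ)) * b := by group
        _ = c ^ (x : ℕ) * (c ^ (r * (y : ℕ)) * b) * b := by rw [b_pow hbc]
        _ = _ := by group

end H32.CM
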