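import Pool.Agent.H22.CM.Stm

/-! Part STI of crew CM. -/

set_option autoImplicit false

namespace H32.CM

open Pool.Agent.Y382.PAR H22.CM

/-- a nontrivial normal subgroup of a finite 2-group contains a central involution -/
theorem exists_central {Q : Type} [Group Q] [Finite Q] (hQ : IsPGroup 2 Q) (N : Subgroup Q)
    [N.Normal] (hN : N ≠ ⊥) : ∃ z ∈ N, z ∈ Subgroup.center Q ∧ orderOf z = 2 := by
  have : Fact (Nat.Prime 2) := ⟨Nat.prime_two⟩
  have hQ' : IsPGroup 2 (ConjAct Q) := hQ.of_equiv ConjAct.toConjAct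
  have hd : 2 ∣ Nat.card N := by
    rcases (hQ.to_subgroup N).card_eq_or_dvd with h | h
    · exact absurd (Subgroup.card_eq_one.1 h) hN
    · exact h
  have h1 : (1 : N) ∈ MulAction.fixedPoints (ConjAct Q) N := fun g => smul_one g
  obtain ⟨b, hb, hne⟩ := hQ'.exists_fixed_point_of_prime_dvd_card_of_fixed_point N hd h1
  have hbc : (b : Q) ∈ Subgroup.center Q := by
    rw [Subgroup.mem_center_iff]
    intro g
    have h2 := congrArg Subtype.val (hb (ConjAct.toConjAct g))
    rw [ConjAct.Subgroup.val_conj_smul, ConjAct.smul_def, ConjAct.ofConjAct_toConjAct] at h2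
    calc g * (b : Q) = g * b * g⁻¹ * g := by group
      _ = b * g := by rw [h2]
  have hb1 : (b : Q) ≠ 1 := fun h => hne (Subtype.ext h.symm)
  obtain ⟨k, hk⟩ := IsPGroup.iff_orderOf.1 hQ (b : Q)
  have hk0 : k ≠ 0 := by
    rintro rfl
    rw [pow_zero, orderOf_eq_one_iff] at hk
    exact hb1 hk
  obtain ⟨l, rfl⟩ := Nat.exists_eq_succ_of_ne_zero hk0
  refine ⟨(b : Q) ^ (2 ^ l), pow_mem b.2 _, pow_mem hbc _, ?_⟩
  rw [orderOf_pow_of_dvd (by positivity) (by rw [hk, pow_succ]; exact dvd_mul_right _ _), hk,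
    pow_succ, Nat.mul_div_cancel_left _ (by positivity)]

theorem t_STI : S_STI := by
  intro P _ _ N hP hNn hN hx
  have : Fact (Nat.Prime 2) := ⟨Nat.prime_two⟩
  have := hNn
  -- maximal normal subgroup of `P` strictly inside `N`
  obtain ⟨M, hM⟩ := (Set.toFinite {M : Subgroup P | M.Normal ∧ M < N}).exists_maximal
    ⟨⊥, inferInstanceAs (⊥ : Subgroup P).Normal, bot_lt_iff_ne_bot.2 hN⟩
  obtain ⟨⟨hMn, hMN⟩, hmax⟩ := hM
  have := hMn
  have hcardM : Nat.card M * 2 = Nat.card N := by
    have hsurj := QuotientGroup.mk'_surjective M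
    have hNm : (N.map (QuotientGroup.mk' M)).Normal := hNn.map _ hsurj
    have hNb : N.map (QuotientGroup.mk' M) ≠ ⊥ := by
      rw [Ne, Subgroup.map_eq_bot_iff, QuotientGroup.ker_mk']
      exact not_le_of_gt hMN
    obtain ⟨z, hzN, hzc, hz2⟩ := exists_central (hP.to_quotient M) _ hNb
    set Z := Subgroup.zpowers z with hZ
    have hZn : Z.Normal := by
      refine ⟨fun x hxZ g => ?_⟩
      have hxc : x ∈ Subgroup.center (P ⧸ M) := by
        have : Z ≤ Subgroup.center (P ⧸ M) := by
          rw [hZ, Subgroup.zpowers_le]; exact hzc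
        exact this hxZ
      have : g * x * g⁻¹ = x := by
        rw [Subgroup.mem_center_iff.1 hxc g]; group
      rw [this]; exact hxZ
    set M' := Z.comap (QuotientGroup.mk' M) with hM'
    have hcZ : Nat.card Z = 2 := by rw [hZ, Nat.card_zpowers, hz2]
    have hMM' : M ≤ M' := by
      intro x hx
      rw [hM', Subgroup.mem_comap]
      have : QuotientGroup.mk' M x = 1 := (QuotientGroup.eq_one_iff x).2 hx
      rw [this]; exact one_mem _
    have hM'N : M' ≤ N := by
      have h1 : Z ≤ N.map (QuotientGroup.mk' M) := by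
        rw [hZ, Subgroup.zpowers_le]; exact hzN
      have h2 := Subgroup.comap_mono (f := QuotientGroup.mk' M) h1
      rw [Subgroup.comap_map_eq, QuotientGroup.ker_mk', sup_eq_left.2 hMN.le] at h2
      exact h2
    have hidx : M'.index = Z.index := Subgroup.index_comap_of_surjective _ hsurj
    have e1 := M.card_mul_index
    have e2 := M'.card_mul_index
    have e3 := Z.card_mul_index
    have e4 : Nat.card (P ⧸ M) = M.index := rfl
    have hi : 0 < Z.index := Nat.pos_of_ne_zero Subgroup.index_ne_zero_of_finite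
    rw [hidx] at e2
    rw [e4, hcZ] at e3
    have hcM' : Nat.card M' = Nat.card M * 2 := by
      apply Nat.eq_of_mul_eq_mul_right hi
      rw [e2, ← e1, ← e3, mul_assoc]
    have hlt : M < M' := by
      refine lt_of_le_of_ne hMM' fun h => ?_
      rw [← h] at hcM'
      have : 0 < Nat.card M := Nat.card_pos
      omega
    have hEq : M' = N := by
      by_contra hne
      have h1 : M' ∈ {M : Subgroup P | M.Normal ∧ M < N} :=
        ⟨hZn.comap _, lt_of_le_of_ne hM'N hne⟩
      exact absurd (hmax h1 hMM') (not_le_of_gt hlt)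
    rw [← hEq, hcM']
  refine ⟨M, hMn, hMN.le, hcardM, fun hcyc => ?_⟩
  obtain ⟨g, hg⟩ := hcyc.exists_generator
  have h1 : orderOf g = Nat.card M := orderOf_eq_card_of_forall_mem_zpowers hg
  have h2 : orderOf (⟨(g : P), hMN.le g.2⟩ : N) = Nat.card M := by
    rw [← h1, ← Subgroup.orderOf_coe, ← Subgroup.orderOf_coe g]
  exact hx _ (by rw [h2, hcardM])

end H32.CM
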